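import Pool.Agent.H20.KH.Stmts
import Pool.Agent.H33.KG.BAS
import Pool.Agent.H82.KG.MGL

/-!
# Project KH, module OL2: the telescoping lemma with the variance term
-/

set_option autoImplicit false
set_option linter.unusedSectionVars false

open MeasureTheory Set Filter Topology
open scoped ContDiff

namespace Pool.Agent.H20.KH

open Pool.Agent.H84 Pool.Agent.H84.Sym Pool.Agent.H84.Sym.P2x Pool.Agent.H19.KL
open Pool.Agent.H73.KG

section cls

variable {E : Type} [NormedAddCommGroup E] [InnerProductSpace ℝ E]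
    [FiniteDimensional ℝ E] [MeasurableSpace E] [BorelSpace E]

/-- conditional means are continuously differentiable -/
theorem OL2_cav (S : Submodule ℝ E) {U f : E → ℝ} {t C : ℝ} (hU : Pot U t C)
    (hf : ContDiff ℝ 1 f) (hfg : Gr f) (hfg' : Gr (fun x => ‖fderiv ℝ f x‖)) :
    ContDiff ℝ 1 (cav S U f) ∧
    ∀ (z ν : Sᗮ), fderiv ℝ (cav S U f) z ν =
      (∫ x : S, fderiv ℝ f ((x : E) + (z : E)) (ν : E) ∂(mu (fb S U z))) -
      cv (fb S U z) (fun x => f ((x : E) + (z : E)))
        (fun x => fderiv ℝ U ((x : E) + (z : E)) (ν : E)) := by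
  have hρ0 := P4bx.rho_pos S hU
  obtain ⟨hρ1, hDρ⟩ := diff_pint S (F := fun _ => 1) hU contDiff_const (Gr.of_bdd fun _ => le_rfl)
    (by simp only [fderiv_fun_const, Pi.zero_apply, norm_zero]; exact Gr.of_bdd fun _ => le_rfl)
  have hDρ' : ∀ z ν : Sᗮ, D ν (pint S U (fun _ => 1)) z = -pint S U (D (ν : E) U) z := by
    intro z ν
    rw [hDρ, ← P4bx.pint_neg]
    congr 1
    funext x
    simp [D]
  have hDfg : ∀ e : E, GC (D e f) := by
    intro e
    refine ⟨(contDiff_D (m := 0) hf (by norm_num) e).continuous, ?_⟩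
    refine Gr.of_le (Gr.mul hfg' (Gr.of_bdd (F := fun _ : E => ‖e‖) (A := ‖e‖)
      fun _ => by simp)) fun x => ?_
    rw [abs_of_nonneg (mul_nonneg (norm_nonneg _) (norm_nonneg e))]
    exact (fderiv ℝ f x).le_opNorm e
  obtain ⟨hf1, hDf⟩ := diff_pint S hU hf hfg hfg'
  have hcav : cav S U f = fun z => pint S U f z * (pint S U (fun _ => 1) z)⁻¹ := by
    funext z
    rfl
  have hfgc : GC f := ⟨hf.continuous, hfg⟩
  refine ⟨?_, fun z ν => ?_⟩
  · rw [hcav]
    exact hf1.mul (hρ1.inv fun z => (hρ0 z).ne')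
  · have d1 : DifferentiableAt ℝ (pint S U f) z := hf1.differentiable (by norm_num) z
    have d2' : HasFDerivAt (fun z => (pint S U (fun _ => 1) z)⁻¹)
        (-((pint S U (fun _ => 1) z) ^ 2)⁻¹ • fderiv ℝ (pint S U (fun _ => 1)) z) z :=
      (hasDerivAt_inv (hρ0 z).ne').comp_hasFDerivAt z
        (hρ1.differentiable (by norm_num) z).hasFDerivAt
    have e0 : fderiv ℝ (cav S U f) z ν = D ν (cav S U f) z := rfl
    have c1 : (∫ x : S, fderiv ℝ f ((x : E) + (z : E)) (ν : E) ∂(mu (fb S U z))) =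
        cav S U (D (ν : E) f) z := P4bx.int_nsec S hU (D (ν : E) f) z
    have c2 : cv (fb S U z) (fun x => f ((x : E) + (z : E)))
        (fun x => fderiv ℝ U ((x : E) + (z : E)) (ν : E)) =
        cav S U (fun x => f x * D (ν : E) U x) z - cav S U f z * cav S U (D (ν : E) U) z := by
      unfold Pool.Agent.H73.KG.cv
      have a1 := P4bx.int_nsec S hU (fun x => f x * D (ν : E) U x) z
      have a2 := P4bx.int_nsec S hU f z
      have a3 := P4bx.int_nsec S hU (D (ν : E) U) z
      rw [← a1, ← a2, ← a3]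
      rfl
    rw [e0, c1, c2, hcav, D_mul d1 d2'.differentiableAt]
    have e2 : D ν (fun z => (pint S U (fun _ => 1) z)⁻¹) z =
        ((pint S U (fun _ => 1) z) ^ 2)⁻¹ * pint S U (D (ν : E) U) z := by
      have h4 : fderiv ℝ (pint S U (fun _ => 1)) z ν = -pint S U (D (ν : E) U) z := hDρ' z ν
      simp only [D]
      rw [d2'.fderiv, smul_apply, h4]
      simp only [smul_eq_mul]
      ring
    have e3 : D ν (pint S U f) z = pint S U (D (ν : E) f) z -
          pint S U (fun x => f x * D (ν : E) U x) z := by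
      rw [hDf z ν, ← P4bx.pint_sub S hU (hDfg _) (hfgc.mul (P4bx.gc_D hU _))]
    rw [e2, e3]
    unfold cav
    have := (hρ0 z).ne'
    field_simp
    ring

/-- functions on the fibres with continuous coefficients -/
def OL2_cls (S : Submodule ℝ E) (H : Sᗮ → S → ℝ) : Prop :=
  ∃ (ι : Type) (_ : Fintype ι) (p : ι → Sᗮ → ℝ) (F : ι → E → ℝ), (∀ a, Continuous (p a)) ∧
    (∀ a, GC (F a)) ∧ ∀ z x, H z x = ∑ a, p a z * F a ((x : E) + (z : E))

theorem OL2_cls_F (S : Submodule ℝ E) {F : E → ℝ} (hF : GC F) :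
    OL2_cls S (fun z x => F ((x : E) + (z : E))) :=
  ⟨Unit, inferInstance, fun _ _ => 1, fun _ => F, fun _ => continuous_const, fun _ => hF,
    fun z x => by simp⟩

theorem OL2_cls_p (S : Submodule ℝ E) {p : Sᗮ → ℝ} (hp : Continuous p) :
    OL2_cls S (fun z (_ : S) => p z) :=
  ⟨Unit, inferInstance, fun _ => p, fun _ _ => 1, fun _ => hp, fun _ => GC.const _,
    fun z x => by simp⟩

theorem OL2_cls_add (S : Submodule ℝ E) {H G : Sᗮ → S → ℝ} (hH : OL2_cls S H)
    (hG : OL2_cls S G) : OL2_cls S (fun z x => H z x + G z x) := by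
  obtain ⟨ι, _, p, F, h1, h2, h3⟩ := hH
  obtain ⟨κ, _, q, F', h1', h2', h3'⟩ := hG
  refine ⟨ι ⊕ κ, inferInstance, Sum.elim p q, Sum.elim F F', ?_, ?_, fun z x => ?_⟩
  · rintro (a | a)
    · exact h1 a
    · exact h1' a
  · rintro (a | a)
    · exact h2 a
    · exact h2' a
  · show H z x + G z x = _
    rw [Fintype.sum_sum_type, h3, h3']
    rfl

theorem OL2_cls_mul (S : Submodule ℝ E) {H G : Sᗮ → S → ℝ} (hH : OL2_cls S H)
    (hG : OL2_cls S G) : OL2_cls S (fun z x => H z x * G z x) := by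
  obtain ⟨ι, _, p, F, h1, h2, h3⟩ := hH
  obtain ⟨κ, _, q, F', h1', h2', h3'⟩ := hG
  refine ⟨ι × κ, inferInstance, fun a z => p a.1 z * q a.2 z, fun a x => F a.1 x * F' a.2 x,
    fun a => (h1 a.1).mul (h1' a.2), fun a => (h2 a.1).mul (h2' a.2), fun z x => ?_⟩
  show H z x * G z x = _
  rw [Fintype.sum_prod_type, h3, h3', Finset.sum_mul_sum]
  exact Finset.sum_congr rfl fun i _ => Finset.sum_congr rfl fun j _ => by ring

theorem OL2_cls_sum (S : Submodule ℝ E) {κ : Type} (s : Finset κ) {H : κ → Sᗮ → S → ℝ}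
    (hH : ∀ i, OL2_cls S (H i)) : OL2_cls S (fun z x => ∑ i ∈ s, H i z x) := by
  classical
  induction s using Finset.induction_on with
  | empty =>
    simp only [Finset.sum_empty]
    exact OL2_cls_p S continuous_const
  | insert a s ha ih =>
    simp only [Finset.sum_insert ha]
    exact OL2_cls_add S (hH a) ih

theorem OL2_cls_int (S : Submodule ℝ E) {U : E → ℝ} {t C : ℝ} (hU : Pot U t C)
    {H : Sᗮ → S → ℝ} (hH : OL2_cls S H) :
    Continuous (fun z => ∫ x, H z x ∂(mu (fb S U z))) := by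
  obtain ⟨ι, _, p, F, h1, h2, h3⟩ := hH
  have e : (fun z => ∫ x, H z x ∂(mu (fb S U z))) = fun z => ∑ a, p a z * cav S U (F a) z := by
    funext z
    simp only [h3]
    rw [integral_finsetSum]
    · refine Finset.sum_congr rfl fun a _ => ?_
      rw [integral_const_mul]
      congr 1
      exact P4bx.int_nsec S hU (F a) z
    · intro a _
      exact ((P4bx.gc_sec S (h2 a) (z : E)).integrable (P4bx.pot_nsec S hU z)).const_mul _
  rw [e]
  exact continuous_finsetSum _ fun a _ => (h1 a).mul (MGLx.cav_cont' S hU (h2 a))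

theorem OL2_cls_cv (S : Submodule ℝ E) {U : E → ℝ} {t C : ℝ} (hU : Pot U t C)
    {H : Sᗮ → S → ℝ} (hH : OL2_cls S H) :
    Continuous (fun z => cv (fb S U z) (H z) (H z)) := by
  unfold Pool.Agent.H73.KG.cv
  exact (OL2_cls_int S hU (OL2_cls_mul S hH hH)).sub
    ((OL2_cls_int S hU hH).mul (OL2_cls_int S hU hH))

theorem OL2_li (S : Submodule ℝ E) (c x : S) (z : Sᗮ) :
    li (c : E) ((x : E) + (z : E)) = li c x := by
  unfold li
  rw [inner_add_right]
  have h1 : inner ℝ (c : E) (z : E) = 0 := Submodule.inner_right_of_mem_orthogonal c.2 z.2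
  rw [h1, add_zero]
  rfl

theorem OL2_mn (S : Submodule ℝ E) {U : E → ℝ} {t C : ℝ} (hU : Pot U t C) (c : S) (z : Sᗮ) :
    mn (fb S U z) c = cav S U (li (c : E)) z := by
  have h := P4bx.int_nsec S hU (li (c : E)) z
  simp only [OL2_li] at h
  exact h

theorem OL2_cc (S : Submodule ℝ E) {U : E → ℝ} {t C : ℝ} (hU : Pot U t C) (c : S) (z : Sᗮ) :
    cv (fb S U z) (li c) (li c) =
      cav S U (fun x => li (c : E) x ^ 2) z - cav S U (li (c : E)) z ^ 2 := by
  have h := P4bx.int_nsec S hU (li (c : E)) z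
  have h' := P4bx.int_nsec S hU (fun x => li (c : E) x ^ 2) z
  simp only [OL2_li] at h h'
  rw [← h, ← h']
  unfold Pool.Agent.H73.KG.cv
  simp only [pow_two]
  rfl

theorem OL2_cls_qc (S : Submodule ℝ E) {U : E → ℝ} {t C : ℝ} (hU : Pot U t C) {κ : Type}
    [Fintype κ] (c : OrthonormalBasis κ ℝ S) (m : κ → ℝ) :
    OL2_cls S (fun z x => qc c m (fb S U z) x) := by
  unfold qc
  refine OL2_cls_sum S _ fun i => ?_
  have h1 : OL2_cls S (fun z x => li (c i) x - mn (fb S U z) (c i)) := by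
    have h2 := OL2_cls_add S (OL2_cls_F S (BAS_li ((c i : S) : E)))
      (OL2_cls_p S (MGLx.cav_cont' S hU (BAS_li ((c i : S) : E))).neg)
    have e : (fun (z : Sᗮ) (x : S) => li (c i) x - mn (fb S U z) (c i)) =
        fun (z : Sᗮ) (x : S) =>
          li ((c i : S) : E) ((x : E) + (z : E)) + -cav S U (li ((c i : S) : E)) z := by
      funext z x
      rw [OL2_li, OL2_mn S hU]
      ring
    rw [e]
    exact h2
  have h3 := OL2_cls_mul S (OL2_cls_p S (continuous_const (y := m i))) (OL2_cls_mul S h1 h1)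
  have e : (fun (z : Sᗮ) (x : S) => m i * (li (c i) x - mn (fb S U z) (c i)) ^ 2) = fun z x =>
      m i * ((li (c i) x - mn (fb S U z) (c i)) * (li (c i) x - mn (fb S U z) (c i))) := by
    funext z x
    ring
  rw [e]
  exact h3

/-- growth of a function with bounded differential -/
theorem OL2_gr {g : E → ℝ} (hg : ContDiff ℝ 1 g) {M : ℝ} (hM : ∀ x, ‖fderiv ℝ g x‖ ≤ M) :
    Gr g ∧ Gr (fun x => ‖fderiv ℝ g x‖) := by
  have hM0 : 0 ≤ M := (norm_nonneg _).trans (hM 0)
  refine ⟨?_, Gr.of_bdd (A := M) fun x => by rw [abs_of_nonneg (norm_nonneg _)]; exact hM x⟩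
  refine ⟨|g 0| + M, 1, fun x => ?_⟩
  have h1 := convex_univ.norm_image_sub_le_of_norm_fderiv_le (𝕜 := ℝ)
    (f := g) (fun x _ => hg.differentiable (by norm_num) x) (fun x _ => hM x)
    (mem_univ (0 : E)) (mem_univ x)
  rw [sub_zero, Real.norm_eq_abs] at h1
  have h2 : |g x| ≤ |g 0| + |g x - g 0| := by
    have := abs_add_le (g 0) (g x - g 0)
    rwa [add_sub_cancel] at this
  have h3 := Real.add_one_le_exp ‖x‖
  have h4 : (1:ℝ) ≤ Real.exp ‖x‖ := by
    have := norm_nonneg x
    linarith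
  rw [one_mul]
  have h5 : |g 0| * 1 ≤ |g 0| * Real.exp ‖x‖ := mul_le_mul_of_nonneg_left h4 (abs_nonneg _)
  have h6 : M * ‖x‖ ≤ M * Real.exp ‖x‖ := mul_le_mul_of_nonneg_left (by linarith) hM0
  linarith

/-- bound of the differential -/
theorem OL2_bd {U g W : E → ℝ} {B : ℝ} (hup : ∀ x v : E, fderiv ℝ (fderiv ℝ U) x v v ≤ ‖v‖ ^ 2)
    (hB : ∀ x, |W x| ≤ B)
    (h : ∀ x X : E, 2 * fderiv ℝ g x X - fderiv ℝ (fderiv ℝ U) x X X ≤ W x) (x : E) :
    ‖fderiv ℝ g x‖ ≤ (B + 1) / 2 := by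
  have hB0 : 0 ≤ B := (abs_nonneg _).trans (hB 0)
  have h1 : ∀ X : E, ‖X‖ = 1 → fderiv ℝ g x X ≤ (B + 1) / 2 := by
    intro X hX
    have a1 := h x X
    have a2 := hup x X
    have a3 := (le_abs_self _).trans (hB x)
    rw [hX] at a2
    linarith
  have h2 : ∀ v : E, fderiv ℝ g x v ≤ (B + 1) / 2 * ‖v‖ := by
    intro v
    rcases eq_or_ne v 0 with hv | hv
    · subst hv
      simp
    · have hn : 0 < ‖v‖ := norm_pos_iff.2 hv
      have a1 := h1 (‖v‖⁻¹ • v) (by
        rw [norm_smul, norm_inv, norm_norm, inv_mul_cancel₀ hn.ne'])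
      rw [map_smul, smul_eq_mul] at a1
      have a2 := mul_le_mul_of_nonneg_left a1 hn.le
      rw [← mul_assoc, mul_inv_cancel₀ hn.ne', one_mul] at a2
      linarith
  refine ContinuousLinearMap.opNorm_le_bound _ (by positivity) fun v => ?_
  rw [Real.norm_eq_abs, abs_le]
  have a1 := h2 v
  have a2 := h2 (-v)
  rw [map_neg, norm_neg] at a2
  constructor <;> linarith

/-- the new function is continuously differentiable -/
theorem OL2_new (S : Submodule ℝ E) {U g : E → ℝ} {t C : ℝ} (hU : Pot U t C)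
    (hf : ContDiff ℝ 1 g) (hfg : Gr g) (hfg' : Gr (fun x => ‖fderiv ℝ g x‖)) {κ : Type}
    [Fintype κ] (c : OrthonormalBasis κ ℝ S) (m : κ → ℝ) :
    ContDiff ℝ 1 (fun z => cav S U g z + ∑ i, m i * cv (fb S U z) (li (c i)) (li (c i))) ∧
    ∀ (z ν : Sᗮ), fderiv ℝ (fun z => cav S U g z +
        ∑ i, m i * cv (fb S U z) (li (c i)) (li (c i))) z ν =
      (∫ x : S, fderiv ℝ g ((x : E) + (z : E)) (ν : E) ∂(mu (fb S U z))) -
      cv (fb S U z) (fun x => g ((x : E) + (z : E)))
        (fun x => fderiv ℝ U ((x : E) + (z : E)) (ν : E)) -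
      ∑ i, m i * cv (fb S U z) (fun x => (li (c i) x - mn (fb S U z) (c i)) ^ 2)
        (fun x => fderiv ℝ U ((x : E) + (z : E)) (ν : E)) := by
  obtain ⟨hg1, hg2⟩ := OL2_cav S hU hf hfg hfg'
  have hL1 : ∀ i, ContDiff ℝ 1 (li ((c i : S) : E)) := fun i =>
    (innerSL ℝ ((c i : S) : E)).contDiff
  have hLd : ∀ i x, fderiv ℝ (li ((c i : S) : E)) x = innerSL ℝ ((c i : S) : E) := fun i x =>
    (innerSL ℝ ((c i : S) : E)).hasFDerivAt.fderiv
  have hL2 : ∀ i, Gr (fun x => ‖fderiv ℝ (li ((c i : S) : E)) x‖) := by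
    intro i
    simp only [hLd]
    exact Gr.of_bdd fun _ => le_rfl
  have hQ1 : ∀ i, ContDiff ℝ 1 (fun x => li ((c i : S) : E) x ^ 2) := fun i => (hL1 i).pow 2
  have hQd : ∀ i x, fderiv ℝ (fun x => li ((c i : S) : E) x ^ 2) x =
      (2 * li ((c i : S) : E) x) • innerSL ℝ ((c i : S) : E) := by
    intro i x
    have h1 : HasFDerivAt (li ((c i : S) : E)) (innerSL ℝ ((c i : S) : E)) x :=
      (innerSL ℝ ((c i : S) : E)).hasFDerivAt
    have h2 := (h1.pow 2).fderiv
    refine h2.trans ?_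
    ext v
    simp
  have hQ2 : ∀ i, Gr (fun x => ‖fderiv ℝ (fun x => li ((c i : S) : E) x ^ 2) x‖) := by
    intro i
    simp only [hQd]
    refine Gr.of_le (Gr.mul ((GC.const (H := E) (2:ℝ)).mul (BAS_li ((c i : S) : E))).2
      (Gr.of_bdd (F := fun _ : E => ‖innerSL ℝ ((c i : S) : E)‖) (A := ‖innerSL ℝ ((c i : S) : E)‖)
      fun _ => by simp)) fun x => ?_
    rw [abs_of_nonneg (norm_nonneg _), norm_smul, abs_mul, Real.norm_eq_abs,
      abs_of_nonneg (norm_nonneg (innerSL ℝ ((c i : S) : E)))]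
  have hl := fun i => OL2_cav S hU (hL1 i) (BAS_li ((c i : S) : E)).2 (hL2 i)
  have hq := fun i => OL2_cav S hU (hQ1 i) (BAS_li ((c i : S) : E)).sq.2 (hQ2 i)
  have e : (fun z => cav S U g z + ∑ i, m i * cv (fb S U z) (li (c i)) (li (c i))) = fun z =>
      cav S U g z + ∑ i, m i * (cav S U (fun x => li ((c i : S) : E) x ^ 2) z -
        cav S U (li ((c i : S) : E)) z ^ 2) := by
    funext z
    congr 1
    exact Finset.sum_congr rfl fun i _ => by rw [OL2_cc S hU]
  refine ⟨?_, fun z ν => ?_⟩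
  · rw [e]
    exact hg1.add (ContDiff.sum fun i _ => contDiff_const.mul ((hq i).1.sub ((hl i).1.pow 2)))
  · have hh : ∀ i, HasFDerivAt (fun z => m i * (cav S U (fun x => li ((c i : S) : E) x ^ 2) z -
        cav S U (li ((c i : S) : E)) z ^ 2)) (m i • (fderiv ℝ
          (cav S U (fun x => li ((c i : S) : E) x ^ 2)) z - (2 * cav S U (li ((c i : S) : E)) z) •
            fderiv ℝ (cav S U (li ((c i : S) : E))) z)) z := by
      intro i
      have h1 := ((hq i).1.differentiable (by norm_num) z).hasFDerivAt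
      have h2 := ((hl i).1.differentiable (by norm_num) z).hasFDerivAt
      have h3 := (h1.sub (h2.pow 2)).const_mul (m i)
      refine h3.congr_fderiv ?_
      ext v
      simp
    have hs := (((hg1.differentiable (by norm_num) z).hasFDerivAt).add
      (HasFDerivAt.fun_sum fun i (_ : i ∈ Finset.univ) => hh i)).fderiv
    have hs' : fderiv ℝ (fun z => cav S U g z + ∑ i, m i * (cav S U
        (fun x => li ((c i : S) : E) x ^ 2) z - cav S U (li ((c i : S) : E)) z ^ 2)) z = _ := hs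
    rw [e, hs', add_apply, hg2, sub_eq_add_neg _ (∑ i, m i * Pool.Agent.H73.KG.cv _ _ _),
      ← Finset.sum_neg_distrib]
    congr 1
    rw [sum_apply]
    refine Finset.sum_congr rfl fun i _ => ?_
    simp only [smul_apply, sub_apply, smul_eq_mul]
    rw [(hl i).2, (hq i).2]
    set k : S → ℝ := fun x => fderiv ℝ U ((x : E) + (z : E)) (ν : E) with hk
    have hkG : GC k := P4bx.gc_sec S (P4bx.gc_D hU (ν : E)) (z : E)
    have hV : Pot (fb S U z) t (C * (1 + ‖(z : E)‖)) := P4bx.pot_nsec S hU z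
    have hp : IsProbabilityMeasure (mu (fb S U z)) := P4bx.prob_nsec S hU z
    have horth : inner ℝ ((c i : S) : E) (ν : E) = (0:ℝ) :=
      Submodule.inner_right_of_mem_orthogonal (c i).2 ν.2
    have i1 : (∫ x : S, fderiv ℝ (li ((c i : S) : E)) ((x : E) + (z : E)) (ν : E)
        ∂(mu (fb S U z))) = 0 := by
      simp only [hLd, innerSL_apply_apply, horth, integral_zero]
    have i2 : (∫ x : S, fderiv ℝ (fun x => li ((c i : S) : E) x ^ 2) ((x : E) + (z : E)) (ν : E)
        ∂(mu (fb S U z))) = 0 := by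
      simp only [hQd, smul_apply, innerSL_apply_apply, horth, smul_zero, integral_zero]
    rw [i1, i2]
    simp only [OL2_li]
    set a : ℝ := mn (fb S U z) (c i) with ha
    have ha' : cav S U (li ((c i : S) : E)) z = a := (OL2_mn S hU (c i) z).symm
    rw [ha']
    have hlG : GC (li (c i)) := BAS_li (c i)
    have f1 : cv (fb S U z) (fun x => (li (c i) x - a) ^ 2) k =
        cv (fb S U z) (fun x => li (c i) x ^ 2) k - 2 * a * cv (fb S U z) (fun x => li (c i) x) k := by
      have f2 : (fun x => (li (c i) x - a) ^ 2) = fun x => li (c i) x ^ 2 +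
          ((-(2 * a)) * li (c i) x + a ^ 2) := by
        funext x
        ring
      have g1 : GC (fun x => (-(2 * a)) * li (c i) x) := (GC.const _).mul hlG
      have f3 : cv (fb S U z) (fun _ => a ^ 2) k = 0 := by
        unfold Pool.Agent.H73.KG.cv
        rw [integral_const_mul, integral_const]
        simp
      rw [f2, BAS_add hV hlG.sq (g1.add (GC.const _)) hkG, BAS_add hV g1 (GC.const _) hkG,
        BAS_smul, f3]
      ring
    rw [f1]
    ring

end cls

theorem ol2_thm (E : Type) [NormedAddCommGroup E] [InnerProductSpace ℝ E]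
    [FiniteDimensional ℝ E] [MeasurableSpace E] [BorelSpace E]
    (hO : ∀ (F : Type) [NormedAddCommGroup F] [InnerProductSpace ℝ F]
      [FiniteDimensional ℝ F] [MeasurableSpace F] [BorelSpace F], OF2Stmt F) : OL2Stmt E := by
  intro U t hBP S κ _ c m g W K2 hI hK2c hK2b hK2
  obtain ⟨⟨⟨C, hU⟩, hprob⟩, hup⟩ := id hBP
  obtain ⟨hg1, hWc, ⟨BW, hBW⟩, hpt⟩ := hI
  obtain ⟨BK, hBK⟩ := hK2b
  have hW : GC W := ⟨hWc, Gr.of_bdd hBW⟩
  obtain ⟨hgG, hgG'⟩ := OL2_gr hg1 (OL2_bd hup hBW hpt)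
  have hgC : GC g := ⟨hg1.continuous, hgG⟩
  obtain ⟨hnew, hder⟩ := OL2_new S hU hg1 hgG hgG' c m
  have htp := hU.pos
  have hsymm : ∀ x u v, fderiv ℝ (fderiv ℝ U) x u v = fderiv ℝ (fderiv ℝ U) x v u := fun x u v =>
    (hU.smooth.contDiffAt.isSymmSndFDerivAt (x := x) (by simp)).eq u v
  have hU2 : ∀ x, ‖fderiv ℝ (fderiv ℝ U) x‖ ≤ 1 := fun x =>
    P4bx.bilin_bound _ (hsymm x) (fun v => le_trans (by positivity) (hU.hess x v))
      (fun v => by rw [one_mul]; exact hup x v) zero_le_one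
  have hτU : ∀ x v : E, t * ‖Sᗮ.orthogonalProjectionOnto v‖ ^ 2 ≤
      fderiv ℝ (fderiv ℝ U) x v v := by
    intro x v
    refine le_trans (mul_le_mul_of_nonneg_left ?_ htp.le) (hU.hess x v)
    have h1 : ‖Sᗮ.orthogonalProjectionOnto v‖ ≤ ‖v‖ :=
      Submodule.norm_orthogonalProjectionOnto_apply_le _ _
    gcongr
  obtain ⟨-, -, hDDW⟩ := mg_spec S hU hU2 htp hτU
  have hdd : Differentiable ℝ (fderiv ℝ U) :=
    (hU.smooth.fderiv_right (m := 1) (by norm_num)).differentiable (by norm_num)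
  have hqG : ∀ e : E, GC (fun x => fderiv ℝ (fderiv ℝ U) x e e) := by
    intro e
    constructor
    · have h1 : Continuous (fderiv ℝ (fderiv ℝ U)) :=
        (hU.smooth.fderiv_right (m := 1) (by norm_num)).continuous_fderiv (by norm_num)
      exact (h1.clm_apply continuous_const).clm_apply continuous_const
    · refine Gr.of_bdd (A := ‖e‖ ^ 2) fun x => ?_
      rw [abs_of_nonneg (le_trans (by positivity) (hU.hess x e))]
      exact hup x e
  -- the main inequality
  have hmain : ∀ z X : Sᗮ, 2 * fderiv ℝ (fun z => cav S U g z +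
        ∑ i, m i * cv (fb S U z) (li (c i)) (li (c i))) z X -
        fderiv ℝ (fderiv ℝ (mg S U)) z X X ≤ cav S U W z + K2 z -
      cv (fb S U z) (fun x => g ((x : E) + (z : E)) + qc c m (fb S U z) x)
        (fun x => g ((x : E) + (z : E)) + qc c m (fb S U z) x) := by
    intro z X
    have hV : Pot (fb S U z) t (C * (1 + ‖(z : E)‖)) := P4bx.pot_nsec S hU z
    have hp : IsProbabilityMeasure (mu (fb S U z)) := P4bx.prob_nsec S hU z
    have hDU1 : ContDiff ℝ 1 (fun x => fderiv ℝ U x (X : E)) :=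
      contDiff_D hU.smooth (by norm_num) (X : E)
    have hk1 : ContDiff ℝ 1 (fun x : S => fderiv ℝ U ((x : E) + (z : E)) (X : E)) :=
      G2aux.contDiff_shift S (z : E) hDU1
    have hkG : GC (fun x : S => fderiv ℝ U ((x : E) + (z : E)) (X : E)) :=
      P4bx.gc_sec S (P4bx.gc_D hU (X : E)) (z : E)
    have hgz : ContDiff ℝ 1 (fun x : S => g ((x : E) + (z : E))) :=
      G2aux.contDiff_shift S (z : E) hg1
    have hDg : GC (fun x => fderiv ℝ g x (X : E)) := by
      refine ⟨(contDiff_D (m := 0) hg1 (by norm_num) (X : E)).continuous, ?_⟩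
      refine Gr.of_le (Gr.mul hgG' (Gr.of_bdd (F := fun _ : E => ‖(X : E)‖) (A := ‖(X : E)‖)
        fun _ => by simp)) fun x => ?_
      rw [abs_of_nonneg (mul_nonneg (norm_nonneg _) (norm_nonneg (X : E)))]
      exact (fderiv ℝ g x).le_opNorm (X : E)
    have hfk : ∀ x η : S, fderiv ℝ (fun x : S => fderiv ℝ U ((x : E) + (z : E)) (X : E)) x η =
        fderiv ℝ (fderiv ℝ U) ((x : E) + (z : E)) (η : E) (X : E) := by
      intro x η
      have h1 : HasFDerivAt (fun y => fderiv ℝ U y (X : E))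
          ((ContinuousLinearMap.apply ℝ ℝ (X : E)).comp
            (fderiv ℝ (fderiv ℝ U) ((x : E) + (z : E)))) ((x : E) + (z : E)) :=
        (ContinuousLinearMap.apply ℝ ℝ (X : E)).hasFDerivAt.comp _ (hdd _).hasFDerivAt
      rw [(G2aux.hasFDerivAt_shift S (z : E) h1.differentiableAt).fderiv, h1.fderiv]
      rfl
    have hfg : ∀ x η : S, fderiv ℝ (fun x : S => g ((x : E) + (z : E))) x η =
        fderiv ℝ g ((x : E) + (z : E)) (η : E) := by
      intro x η
      rw [(G2aux.hasFDerivAt_shift S (z : E) (hg1.differentiable (by norm_num) _)).fderiv]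
      rfl
    have hfV : ∀ x η : S, fderiv ℝ (fderiv ℝ (fb S U z)) x η η =
        fderiv ℝ (fderiv ℝ U) ((x : E) + (z : E)) (η : E) (η : E) := by
      intro x η
      have e : fderiv ℝ (fb S U z) = fun s : S =>
          (fderiv ℝ U ((s : E) + (z : E))).comp S.subtypeL := by
        ext s : 1
        have h1 : fderiv ℝ (fb S U z) s = fderiv ℝ (sec S U (z : E)) s := by
          unfold fb
          exact fderiv_add_const _
        rw [h1]
        exact G2aux.fderiv_VV hU S (z : E) s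
      have h2 := G2aux.hasFDerivAt_shift S (z : E) (hdd ((x : E) + (z : E)))
      have h3 : HasFDerivAt (fun s : S => (fderiv ℝ U ((s : E) + (z : E))).comp S.subtypeL)
          (((ContinuousLinearMap.compL ℝ S E ℝ).flip S.subtypeL).comp
            ((fderiv ℝ (fderiv ℝ U) ((x : E) + (z : E))).comp S.subtypeL)) x :=
        ((ContinuousLinearMap.compL ℝ S E ℝ).flip S.subtypeL).hasFDerivAt.comp x h2
      rw [e, h3.fderiv]
      rfl
    have main := hO S (fb S U z) t ⟨⟨_, hV⟩, hp⟩ κ c m (K2 z) (hK2 z)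
      (fun x => fderiv ℝ U ((x : E) + (z : E)) (X : E))
      (fun x => fderiv ℝ (fderiv ℝ U) ((x : E) + (z : E)) (X : E) (X : E))
      (fun x => g ((x : E) + (z : E))) (fun x => fderiv ℝ g ((x : E) + (z : E)) (X : E))
      (fun x => W ((x : E) + (z : E))) hk1 hkG.2 hgz (P4bx.gc_sec S hgC (z : E)).2
      (P4bx.gc_sec S (hqG (X : E)) (z : E)) (P4bx.gc_sec S hDg (z : E))
      (P4bx.gc_sec S hW (z : E)) (by
        intro x η
        rw [hfk, hfg, hfV]
        have h1 := hpt ((x : E) + (z : E)) ((X : E) + (η : E))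
        have h3 := hsymm ((x : E) + (z : E)) (X : E) (η : E)
        simp only [map_add, add_apply] at h1
        linarith)
    have q1 := P4bx.int_nsec S hU (fun x => fderiv ℝ (fderiv ℝ U) x (X : E) (X : E)) z
    have q2 := P4bx.int_nsec S hU W z
    have q3 := P4bx.int_nsec S hU (fun x => (D (X : E) U x) ^ 2) z
    have q4 := P4bx.int_nsec S hU (D (X : E) U) z
    have q5 : fderiv ℝ (fderiv ℝ (mg S U)) z X X =
        (∫ x : S, fderiv ℝ (fderiv ℝ U) ((x : E) + (z : E)) (X : E) (X : E) ∂(mu (fb S U z))) -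
        cv (fb S U z) (fun x => fderiv ℝ U ((x : E) + (z : E)) (X : E))
          (fun x => fderiv ℝ U ((x : E) + (z : E)) (X : E)) := by
      rw [hDDW, ← q1, ← q3, ← q4]
      unfold Pool.Agent.H73.KG.cv
      simp only [pow_two]
      rfl
    have q6 : (∫ x : S, W ((x : E) + (z : E)) ∂(mu (fb S U z))) = cav S U W z := q2
    rw [hder, q5, ← q6]
    linarith
  have hcvc : Continuous (fun z : Sᗮ => cv (fb S U z)
      (fun x => g ((x : E) + (z : E)) + qc c m (fb S U z) x)
      (fun x => g ((x : E) + (z : E)) + qc c m (fb S U z) x)) :=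
    OL2_cls_cv S hU (OL2_cls_add S (OL2_cls_F S hgC) (OL2_cls_qc S hU c m))
  refine ⟨hnew, ((MGLx.cav_cont' S hU hW).add hK2c).sub hcvc, ⟨BW + BK, fun z => ?_⟩, hmain⟩
  have hV : Pot (fb S U z) t (C * (1 + ‖(z : E)‖)) := P4bx.pot_nsec S hU z
  have hp : IsProbabilityMeasure (mu (fb S U z)) := P4bx.prob_nsec S hU z
  have h0 := hmain z 0
  simp only [map_zero, mul_zero, sub_zero] at h0
  rw [abs_of_nonneg h0]
  have hqG2 : GC (qc c m (fb S U z)) :=
    GC.sum fun i => (GC.const _).mul ((BAS_li _).sub (GC.const _)).sq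
  have h1 := BAS_nonneg hV hp ((P4bx.gc_sec S hgC (z : E)).add hqG2)
  have h2 : cav S U W z ≤ BW := by
    have q2 := P4bx.int_nsec S hU W z
    have hpn := P4bx.prob_nsec S hU z
    rw [← q2]
    have h3 := norm_integral_le_of_norm_le_const (μ := mu (P4bx.nsec S U z))
      (f := fun x : S => W ((x : E) + (z : E))) (C := BW)
      (ae_of_all _ fun x => by rw [Real.norm_eq_abs]; exact hBW _)
    have h4 : (mu (P4bx.nsec S U z)).real univ = 1 := probReal_univ
    rw [h4, mul_one] at h3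
    exact (le_abs_self _).trans h3
  have h3 : K2 z ≤ BK := (le_abs_self _).trans (hBK z)
  linarith

end Pool.Agent.H20.KH
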